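import Pool.Agent.K1H22.DF.Stm6
import Pool.Agent.K1H94.DF.Up

/-! Project DF6 (MP_1438b7_co), piece `S_U6A`: the construction has the property. -/

set_option autoImplicit false

namespace Pool.Agent.K1H16.DF6

open Pool.Agent.K1H22.DF
open Pool.Agent.K1H94.DF

/-! ### coordinates -/

/-- the vertex of component `c`, row `b`, label `a` -/
def mkv (k c b a : ℕ) : ℕ := k + (c * (k + 1) + b) * k + a

lemma le_mkv (k c b a : ℕ) : k ≤ mkv k c b a := by
  unfold mkv
  omega

lemma mkv_sub (k c b a : ℕ) : mkv k c b a - k = a + k * (c * (k + 1) + b) := by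
  unfold mkv
  rw [Nat.mul_comm k]
  omega

lemma lab_mkv {k c b a : ℕ} (ha : a < k) : lab k (mkv k c b a) = a := by
  have h1 := le_mkv k c b a
  unfold lab
  rw [if_neg (by omega), mkv_sub, Nat.add_mul_mod_self_left, Nat.mod_eq_of_lt ha]

lemma mkv_div {k c b a : ℕ} (ha : a < k) : (mkv k c b a - k) / k = b + (k + 1) * c := by
  rw [mkv_sub, Nat.add_mul_div_left _ _ (by omega : 0 < k), Nat.div_eq_of_lt ha, Nat.zero_add]
  ring

lemma row_mkv {k c b a : ℕ} (ha : a < k) (hb : b ≤ k) : row k (mkv k c b a) = b := by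
  unfold row
  rw [mkv_div ha, Nat.add_mul_mod_self_left, Nat.mod_eq_of_lt (by omega)]

lemma cpt_mkv {k c b a : ℕ} (ha : a < k) (hb : b ≤ k) : cpt k (mkv k c b a) = c := by
  unfold cpt
  rw [mkv_div ha, Nat.add_mul_div_left _ _ (by omega : 0 < k + 1), Nat.div_eq_of_lt (by omega),
    Nat.zero_add]

lemma mkv_lt {k n c b a : ℕ} (hn : k ≤ n) (ha : a < k) (hb : b ≤ k)
    (hc : c < (n - k) / (k * (k + 1))) : mkv k c b a < n := by
  unfold mkv
  have h1 : (c + 1) * (k * (k + 1)) ≤ (n - k) / (k * (k + 1)) * (k * (k + 1)) :=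
    Nat.mul_le_mul_right _ hc
  have h2 := Nat.div_mul_le_self (n - k) (k * (k + 1))
  have h3 : (c * (k + 1) + b) * k + a < (c + 1) * (k * (k + 1)) := by
    have h4 : (c * (k + 1) + b) * k ≤ (c * (k + 1) + k) * k := Nat.mul_le_mul_right _ (by omega)
    have h5 : (c + 1) * (k * (k + 1)) = (c * (k + 1) + k) * k + k := by ring
    omega
  omega

lemma lab_lt {k : ℕ} (hk : 1 ≤ k) (v : ℕ) : lab k v < k := by
  unfold lab
  split_ifs with h
  · exact h
  · exact Nat.mod_lt _ (by omega)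

lemma row_le (k v : ℕ) : row k v ≤ k := by
  have : row k v < k + 1 := Nat.mod_lt _ (by omega)
  omega

lemma lab_hub {k v : ℕ} (h : v < k) : lab k v = v := if_pos h

/-! ### adjacency -/

lemma adj_hh {k n : ℕ} {u v : Fin n} (hne : u ≠ v) (hu : u.1 < k) (hv : v.1 < k) :
    (gU6 k n).Adj u v := by
  unfold gU6
  rw [SimpleGraph.fromRel_adj]
  exact ⟨hne, Or.inl (Or.inl ⟨hu, hv⟩)⟩

lemma adj_hv {k n : ℕ} {u v : Fin n} (h : hadj k n u.1 v.1) : (gU6 k n).Adj u v := by
  unfold gU6
  rw [SimpleGraph.fromRel_adj]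
  refine ⟨?_, Or.inl (Or.inr (Or.inl h))⟩
  rintro rfl
  have h1 := h.1
  have h2 := h.2.1
  omega

lemma adj_c {k n : ℕ} {u v : Fin n} (h : cadj k n u.1 v.1) : (gU6 k n).Adj u v := by
  unfold gU6
  rw [SimpleGraph.fromRel_adj]
  refine ⟨?_, Or.inl (Or.inr (Or.inr h))⟩
  rintro rfl
  rcases h.2.2.2.2 with h1 | h1
  · exact h1.2.2 rfl
  · have h2 := h1.2.1
    have h3 := h1.2.2.1
    omega

/-! ### routes in both directions -/

section both

variable {V : Type*} {G : SimpleGraph V} {S : Finset V}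

/-- routes in both directions -/
def Both (G : SimpleGraph V) (S : Finset V) (j : ℕ) (u v : V) : Prop :=
  Reach G S j u v ∧ Reach G S j v u

lemma both_refl (j : ℕ) (u : V) : Both G S j u u := ⟨reach_refl _ _, reach_refl _ _⟩

lemma both_mono {i j : ℕ} (h : i ≤ j) {u v : V} (hr : Both G S i u v) : Both G S j u v :=
  ⟨reach_mono h hr.1, reach_mono h hr.2⟩

lemma both_trans {i j : ℕ} {u x v : V} (h1 : Both G S i u x) (h2 : Both G S j x v) :
    Both G S (i + j) u v := by
  refine ⟨reach_trans h1.1 h2.1, ?_⟩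
  have := reach_trans h2.2 h1.2
  rwa [Nat.add_comm] at this

lemma both_one {u v : V} (hu : u ∉ S) (hv : v ∉ S) (ha : G.Adj u v) : Both G S 1 u v :=
  ⟨reach_one hv ha, reach_one hu ha.symm⟩

end both

/-! ### the property -/

theorem t_U6A : S_U6A := by
  classical
  intro k n hk hn S hS u v hu hv
  have hkn : k ≤ n := by omega
  set m : ℕ := (n - k) / (k * (k + 1)) with hm
  -- blocked vertices
  set bl : ℕ → Fin n → Prop := fun w s => k ≤ w ∧ cpt k w < m ∧ row k w = k ∧
    (∃ x ∈ S, x.1 = lab k w) ∧ k ≤ s.1 ∧ cpt k s.1 = cpt k w ∧ lab k s.1 = lab k w ∧ row k s.1 < k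
    with hbl
  set psi : Fin n → ℕ := fun s => if bl u.1 s ∨ bl v.1 s then row k s.1 else lab k s.1 with hpsi
  obtain ⟨l, hl, hlS⟩ := exists_not_mem_of_card (Finset.range k) (S.image psi) (by
    have := Finset.card_image_le (s := S) (f := psi)
    rw [Finset.card_range]
    omega)
  rw [Finset.mem_range] at hl
  have hnot : ∀ x : Fin n, psi x = l → x ∉ S := fun x hx hxS =>
    hlS (Finset.mem_image.2 ⟨x, hxS, hx⟩)
  -- (i)
  have h1 : ∀ a : ℕ, (∃ x ∈ S, x.1 = a) → a < k → a ≠ l := by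
    rintro a ⟨x, hxS, rfl⟩ hx hxl
    refine hnot x ?_ hxS
    have h2 : ¬ (bl u.1 x ∨ bl v.1 x) := by
      rintro (h | h)
      · have := h.2.2.2.2.1
        omega
      · have := h.2.2.2.2.1
        omega
    simp only [hpsi]
    rw [if_neg h2, lab_hub hx, hxl]
  -- (ii)
  have h2 : ∀ s : Fin n, lab k s.1 = l → s ∉ S := by
    intro s hs hsS
    by_cases hb : bl u.1 s ∨ bl v.1 s
    · rcases hb with hb | hb
      · exact h1 _ hb.2.2.2.1 (lab_lt hk _) (hb.2.2.2.2.2.2.1.symm.trans hs)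
      · exact h1 _ hb.2.2.2.1 (lab_lt hk _) (hb.2.2.2.2.2.2.1.symm.trans hs)
    · refine hnot s ?_ hsS
      simp only [hpsi]
      rw [if_neg hb, hs]
  set g : Fin n := ⟨l, by omega⟩ with hg
  have hgl : g.1 = l := rfl
  have hgS : g ∉ S := h2 g (by rw [hgl, lab_hub hl])
  -- routes from the vertices of label `l`
  have h3 : ∀ w : Fin n, k ≤ w.1 → cpt k w.1 < m → lab k w.1 = l →
      Both (gU6 k n) S 2 w g := by
    intro w hw1 hw2 hw3
    have hwS : w ∉ S := h2 w hw3
    by_cases hr : row k w.1 = k ∨ row k w.1 = lab k w.1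
    · have ha : (gU6 k n).Adj g w := adj_hv ⟨hl, hw1, Or.inr ⟨hw3, hr⟩⟩
      exact both_mono (by omega) (both_one hwS hgS ha.symm)
    · push Not at hr
      have hrl : row k w.1 < k := lt_of_le_of_ne (row_le _ _) hr.1
      set x : Fin n := ⟨mkv k (cpt k w.1) k l, mkv_lt hkn hl le_rfl hw2⟩ with hx
      have hxv : x.1 = mkv k (cpt k w.1) k l := rfl
      have hx1 : k ≤ x.1 := le_mkv _ _ _ _
      have hx2 : cpt k x.1 = cpt k w.1 := by rw [hxv, cpt_mkv hl le_rfl]
      have hx3 : lab k x.1 = l := by rw [hxv, lab_mkv hl]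
      have hx4 : row k x.1 = k := by rw [hxv, row_mkv hl le_rfl]
      have hxS : x ∉ S := h2 x hx3
      have a1 : (gU6 k n).Adj x w := adj_c ⟨hx1, hw1, hx2, by rw [hx2]; exact hw2,
        Or.inr ⟨by rw [hx3, hw3], hx4, hrl, hr.2⟩⟩
      have a2 : (gU6 k n).Adj g x := adj_hv ⟨hl, hx1, Or.inr ⟨hx3, Or.inl hx4⟩⟩
      exact both_trans (both_one hwS hxS a1.symm) (both_one hxS hgS a2.symm)
  -- (iii)
  have key : ∀ w : Fin n, (w = u ∨ w = v) → w ∉ S → Both (gU6 k n) S 3 w g := by
    intro w hw hwS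
    by_cases hwg : w = g
    · subst hwg
      exact both_refl _ _
    rcases lt_or_ge w.1 k with hwk | hwk
    · exact both_mono (by omega) (both_one hwS hgS (adj_hh hwg hwk hl))
    rcases Nat.lt_or_ge (cpt k w.1) m with hc | hc
    swap
    · have ha : (gU6 k n).Adj g w := adj_hv ⟨hl, hwk, Or.inl hc⟩
      exact both_mono (by omega) (both_one hwS hgS ha.symm)
    by_cases hal : lab k w.1 = l
    · exact both_mono (by omega) (h3 w hwk hc hal)
    rcases Nat.lt_or_ge (row k w.1) k with hr | hr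
    · -- a row `< k`
      set x : Fin n := ⟨mkv k (cpt k w.1) (row k w.1) l, mkv_lt hkn hl hr.le hc⟩ with hx
      have hxv : x.1 = mkv k (cpt k w.1) (row k w.1) l := rfl
      have hx1 : k ≤ x.1 := le_mkv _ _ _ _
      have hx2 : cpt k x.1 = cpt k w.1 := by rw [hxv, cpt_mkv hl hr.le]
      have hx3 : lab k x.1 = l := by rw [hxv, lab_mkv hl]
      have hx4 : row k x.1 = row k w.1 := by rw [hxv, row_mkv hl hr.le]
      have hxS : x ∉ S := h2 x hx3
      have a1 : (gU6 k n).Adj w x := adj_c ⟨hwk, hx1, hx2.symm, hc,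
        Or.inl ⟨hx4.symm, hr, by rw [hx3]; exact hal⟩⟩
      have := both_trans (both_one hwS hxS a1) (h3 x hx1 (by rw [hx2]; exact hc) hx3)
      exact this
    · -- the last row
      have hrk : row k w.1 = k := le_antisymm (row_le _ _) hr
      have hak : lab k w.1 < k := lab_lt hk _
      by_cases hga : ∃ x ∈ S, x.1 = lab k w.1
      · -- the hub of the label is deleted
        set x : Fin n := ⟨mkv k (cpt k w.1) l (lab k w.1), mkv_lt hkn hak hl.le hc⟩ with hx
        have hxv : x.1 = mkv k (cpt k w.1) l (lab k w.1) := rfl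
        have hx1 : k ≤ x.1 := le_mkv _ _ _ _
        have hx2 : cpt k x.1 = cpt k w.1 := by rw [hxv, cpt_mkv hak hl.le]
        have hx3 : lab k x.1 = lab k w.1 := by rw [hxv, lab_mkv hak]
        have hx4 : row k x.1 = l := by rw [hxv, row_mkv hak hl.le]
        have hbw : bl w.1 x := ⟨hwk, hc, hrk, hga, hx1, hx2, hx3, by rw [hx4]; exact hl⟩
        have hxS : x ∉ S := by
          refine hnot x ?_
          simp only [hpsi]
          rw [if_pos, hx4]
          rcases hw with rfl | rfl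
          · exact Or.inl hbw
          · exact Or.inr hbw
        set y : Fin n := ⟨mkv k (cpt k w.1) l l, mkv_lt hkn hl hl.le hc⟩ with hy
        have hyv : y.1 = mkv k (cpt k w.1) l l := rfl
        have hy1 : k ≤ y.1 := le_mkv _ _ _ _
        have hy2 : cpt k y.1 = cpt k w.1 := by rw [hyv, cpt_mkv hl hl.le]
        have hy3 : lab k y.1 = l := by rw [hyv, lab_mkv hl]
        have hy4 : row k y.1 = l := by rw [hyv, row_mkv hl hl.le]
        have hyS : y ∉ S := h2 y hy3
        have a1 : (gU6 k n).Adj w x := adj_c ⟨hwk, hx1, hx2.symm, hc,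
          Or.inr ⟨hx3.symm, hrk, by rw [hx4]; exact hl, by rw [hx4, hx3]; exact fun h => hal h.symm⟩⟩
        have a2 : (gU6 k n).Adj x y := adj_c ⟨hx1, hy1, by rw [hx2, hy2], by rw [hx2]; exact hc,
          Or.inl ⟨by rw [hx4, hy4], by rw [hx4]; exact hl, by rw [hx3, hy3]; exact hal⟩⟩
        have a3 : (gU6 k n).Adj g y := adj_hv ⟨hl, hy1, Or.inr ⟨hy3, Or.inr (by rw [hy4, hy3])⟩⟩
        exact both_trans (both_trans (both_one hwS hxS a1) (both_one hxS hyS a2))
          (both_one hyS hgS a3.symm)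
      · -- through the hub of the label
        set x : Fin n := ⟨lab k w.1, by omega⟩ with hx
        have hxv : x.1 = lab k w.1 := rfl
        have hxS : x ∉ S := fun h => hga ⟨x, h, hxv⟩
        have a1 : (gU6 k n).Adj x w := adj_hv ⟨by rw [hxv]; exact hak, hwk,
          Or.inr ⟨hxv.symm, Or.inl hrk⟩⟩
        have hne : x ≠ g := by
          intro h
          apply hal
          rw [← hxv, h]
        have a2 : (gU6 k n).Adj x g := adj_hh hne (by rw [hxv]; exact hak) hl
        exact both_mono (by omega) (both_trans (both_one hwS hxS a1.symm) (both_one hxS hgS a2))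
  exact reach_trans (key u (Or.inl rfl) hu).1 (key v (Or.inr rfl) hv).2

end Pool.Agent.K1H16.DF6
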